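import Pool.Agent.Helper13.CSD.Defs
import Pool.Agent.Helper45.CSM.Defs

/-!
The definitions of `CSD.Defs`, and those of the proofs.
-/

namespace Pool.Agent.Helper13.CSD

open MvPolynomial

variable {m : ℕ}

lemma isDiff_iff (i : Fin m) (f g : MvPolynomial (Fin (m + 1)) ℤ) :
    IsDiff i f g ↔ H45C.dd1 i f = g :=
  ⟨fun h => H45C.dd1_unique i f g h, fun h => h ▸ H45C.dd1_spec i f⟩

lemma inv_eq (v : Equiv.Perm (Fin (m + 1))) : inv v = H45C.inv v := by
  unfold inv H45C.inv
  rw [Nat.card_eq_fintype_card, Fintype.card_subtype]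

lemma code_eq (v : Equiv.Perm (Fin (m + 1))) (j : Fin (m + 1)) : code v j = H45C.code v j := by
  unfold code H45C.code
  rw [Nat.card_eq_fintype_card, Fintype.card_subtype]

lemma dd_append (l l' : List (Fin m)) (f : H45C.Pol m) :
    H45C.dd (l ++ l') f = H45C.dd l' (H45C.dd l f) := by
  induction l generalizing f with
  | nil => rfl
  | cons k l ih => exact ih _

lemma wp_append (l l' : List (Fin m)) : H45C.wp (l ++ l') = H45C.wp l' * H45C.wp l := by
  induction l with
  | nil => exact (mul_one _).symm
  | cons k l ih =>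
    show H45C.wp (l ++ l') * H45C.sg k = H45C.wp l' * (H45C.wp l * H45C.sg k)
    rw [ih, mul_assoc]

lemma prod_eq (l : List (Fin m)) : (l.map refl).prod = H45C.wp l.reverse := by
  induction l with
  | nil => rfl
  | cons k l ih =>
    rw [List.map_cons, List.prod_cons, List.reverse_cons, wp_append, ih]
    show refl k * _ = (1 * refl k) * _
    rw [one_mul]

variable {H : Type} [CommRing H] {π : MvPolynomial (Fin (m + 1)) ℤ →+* H}

/-- the isomorphism with the quotient ring -/
noncomputable def borelEquiv (hπ : IsBorel π) : H45C.Coh m ≃+* H :=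
  (Ideal.quotEquivOfEq hπ.2.symm).trans (RingHom.quotientKerEquivOfSurjective hπ.1)

lemma borelEquiv_mk (hπ : IsBorel π) (p : MvPolynomial (Fin (m + 1)) ℤ) :
    borelEquiv hπ (H45C.cl p) = π p := rfl

lemma isCSM_conv (hπ : IsBorel π) {C : H45C.WG m → H45C.Coh m} :
    IsCSM π (fun w => borelEquiv hπ (C w)) ↔ H45C.IsCSM C := by
  have hinj := (borelEquiv hπ).injective
  constructor
  · rintro ⟨h1, h2⟩
    refine ⟨hinj h1, fun w i f h => hinj ?_⟩
    exact h2 w i f _ (H45C.dd1_spec i f) (congrArg (borelEquiv hπ) h)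
  · intro h
    refine ⟨congrArg (borelEquiv hπ) h.pt, fun w i f g hg hw => ?_⟩
    have h3 := h.step w i f (hinj hw)
    have h4 : H45C.dd1 i f = g := (isDiff_iff i f g).mp hg
    unfold H45C.TT at h3
    rw [h4] at h3
    exact congrArg (borelEquiv hπ) h3

lemma isSchub_conv {v : Equiv.Perm (Fin (m + 1))} {P : MvPolynomial (Fin (m + 1)) ℤ} :
    IsSchub v P ↔ H45C.IsSchub v P := by
  constructor
  · rintro ⟨D, h1, h2, h3⟩ l
    have h4 : ∀ l, D l = H45C.dd l.reverse P := by
      intro l
      induction l with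
      | nil => exact h1
      | cons k l ih =>
        rw [List.reverse_cons, dd_append, ← ih]
        exact ((isDiff_iff k _ _).mp (h2 k l)).symm
    have h5 := h3 l.reverse
    rw [prod_eq, h4, List.reverse_reverse, List.length_reverse, inv_eq] at h5
    split_ifs with h6
    · exact h5.1 h6
    · exact h5.2 h6
  · intro h
    refine ⟨fun l => H45C.dd l.reverse P, rfl, fun i l => ?_, fun l => ?_⟩
    · rw [isDiff_iff]
      show H45C.dd1 i (H45C.dd l.reverse P) = H45C.dd (i :: l).reverse P
      rw [List.reverse_cons, dd_append]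
      rfl
    · have h1 := h l.reverse
      rw [List.length_reverse] at h1
      rw [prod_eq, inv_eq]
      constructor
      · intro h2
        rw [h1, if_pos h2]
      · intro h2
        rw [h1, if_neg h2]

end Pool.Agent.Helper13.CSD
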