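import Mathlib

/-!
# CSM classes and Schubert classes in type A: definitions

`G = GL_n`, `n = m + 1`, with Weyl group `Equiv.Perm (Fin (m + 1))`. The cohomology ring of the flag
variety `G / B` is `H = ℤ[x_0, ..., x_m] / (symmetric polynomials without constant term)` (Borel);
`π` is the projection of the polynomial ring onto `H`.
-/

namespace Pool.Agent.Helper13.CSD

open MvPolynomial

/-- `π` presents `H` as the quotient of `ℤ[x_0, ..., x_m]` by the ideal generated by the symmetric
polynomials without constant term. -/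
def IsBorel {m : ℕ} {H : Type} [CommRing H] (π : MvPolynomial (Fin (m + 1)) ℤ →+* H) : Prop :=
  Function.Surjective π ∧ RingHom.ker π = Ideal.span {p | p.IsSymmetric ∧ constantCoeff p = 0}

/-- The simple reflection `s_i = (i, i+1)`. -/
def refl {m : ℕ} (i : Fin m) : Equiv.Perm (Fin (m + 1)) := Equiv.swap i.castSucc i.succ

/-- `g` is the divided difference `∂_i f = (f - s_i f) / (x_i - x_{i+1})`. -/
def IsDiff {m : ℕ} (i : Fin m) (f g : MvPolynomial (Fin (m + 1)) ℤ) : Prop :=
  (X i.castSucc - X i.succ) * g = f - rename (refl i) f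

/-- The number of inversions (the length) of a permutation. -/
noncomputable def inv {m : ℕ} (v : Equiv.Perm (Fin (m + 1))) : ℕ :=
  Nat.card {p : Fin (m + 1) × Fin (m + 1) // p.1 < p.2 ∧ v p.2 < v p.1}

/-- The Lehmer code. -/
noncomputable def code {m : ℕ} (v : Equiv.Perm (Fin (m + 1))) (j : Fin (m + 1)) : ℕ :=
  Nat.card {k : Fin (m + 1) // j < k ∧ v k < v j}

/-- `C w = c_SM(Y(w)°)` for all `w`: `C(w_0)` is the class of a point, the class of the monomial
`x_0^m x_1^(m-1) ⋯ x_(m-1)`, and `C(w s_i) = T_i C(w)` for the operators `T_i = ∂_i - s_i`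
(theorem of Aluffi and Mihalcea). -/
def IsCSM {m : ℕ} {H : Type} [CommRing H] (π : MvPolynomial (Fin (m + 1)) ℤ →+* H)
    (C : Equiv.Perm (Fin (m + 1)) → H) : Prop :=
  C Fin.revPerm = π (∏ j : Fin (m + 1), X j ^ (m - (j : ℕ))) ∧
  ∀ w i f g, IsDiff i f g → C w = π f → C (w * refl i) = π (g - rename (refl i) f)

/-- `P` represents the Schubert class `[Y(v)]`: for every word `l = [k_r, ..., k_1]`, the constant
term of `D l = ∂_{k_r} ⋯ ∂_{k_1} P` is `1` if `l` is a reduced word of `v`, and `0` otherwise. (For a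
reduced word of `w`, it is the integral of `P` over the Schubert variety `X(w)`.) -/
def IsSchub {m : ℕ} (v : Equiv.Perm (Fin (m + 1))) (P : MvPolynomial (Fin (m + 1)) ℤ) : Prop :=
  ∃ D : List (Fin m) → MvPolynomial (Fin (m + 1)) ℤ, D [] = P ∧
    (∀ i l, IsDiff i (D l) (D (i :: l))) ∧
    ∀ l, ((l.map refl).prod = v ∧ l.length = inv v → constantCoeff (D l) = 1) ∧
      (¬ ((l.map refl).prod = v ∧ l.length = inv v) → constantCoeff (D l) = 0)

end Pool.Agent.Helper13.CSD
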