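import Pool.Agent.Helper13.CSD.Conv
import Pool.Agent.Helper50.CSB.G7
import Pool.Agent.Helper50.CSB.R1

/-!
# Nonnegativity of the CSM expansion of `[Y(v)] * c_SM(Y(u)°)` in type A
-/

namespace Pool.Agent.Helper13.CSD

open MvPolynomial

lemma EE_word {m : ℕ} (l : List (Fin m)) (h : ∀ i : ℕ, ¬ ∀ t < 4, ∃ k ∈ l, (k : ℕ) = i + t) :
    H50R.EE (m := m) (l.map refl).prod := by
  rw [prod_eq]
  refine H50R.EE_nofour _ l.reverse rfl fun i hi => h i fun t ht => ?_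
  obtain ⟨k, hk, hk2⟩ := hi t ht
  exact ⟨k, List.mem_reverse.mp hk, hk2⟩

lemma EE_two {m : ℕ} {v : Equiv.Perm (Fin (m + 1))}
    (h : ∃ i j : Fin (m + 1), i < j ∧ (∀ k, k ≠ i → k ≠ j → code v k = 0) ∧
      (code v i ≤ (j : ℕ) - i + 1 ∨ code v j ≤ 2 ∨
        ((j : ℕ) = i + 1 ∧ (code v i ≤ 4 ∨ code v j ≤ 3)))) : H50R.EE (m := m) v := by
  simp only [code_eq] at h
  exact H50R.EE_rows v h

theorem transfer (m : ℕ) (Q : (H45C.WG m → H45C.WG m → H45C.WG m → ℤ) → Prop)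
    (hmain : ∃ C : H45C.WG m → H45C.Coh m, H45C.IsCSM C ∧ (∀ C', H45C.IsCSM C' → C' = C) ∧
      LinearIndependent ℤ C ∧ Submodule.span ℤ (Set.range C) = ⊤ ∧
      ∃ Y : H45C.WG m → H45C.Coh m, (∀ v : H45C.WG m, ∃ P : H45C.Pol m, H45C.IsSchub v P) ∧
        (∀ (v : H45C.WG m) (P : H45C.Pol m), H45C.IsSchub v P → Y v = H45C.cl P) ∧
        ∃ a : H45C.WG m → H45C.WG m → H45C.WG m → ℤ,
          (∀ u v : H45C.WG m, Y v * C u = ∑ w, (a u v w : H45C.Coh m) * C w) ∧ Q a)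
    {H : Type} [CommRing H] (π : MvPolynomial (Fin (m + 1)) ℤ →+* H) (hπ : IsBorel π) :
    ∃ C : Equiv.Perm (Fin (m + 1)) → H,
      IsCSM π C ∧ (∀ C', IsCSM π C' → C' = C) ∧
      LinearIndependent ℤ C ∧ Submodule.span ℤ (Set.range C) = ⊤ ∧
      ∃ Y : Equiv.Perm (Fin (m + 1)) → H,
        (∀ v : Equiv.Perm (Fin (m + 1)), ∃ P, IsSchub v P) ∧
        (∀ v P, IsSchub v P → Y v = π P) ∧
        ∃ a : Equiv.Perm (Fin (m + 1)) → Equiv.Perm (Fin (m + 1)) → Equiv.Perm (Fin (m + 1)) → ℤ,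
          (∀ u v, Y v * C u = ∑ w, a u v w • C w) ∧ Q a := by
  obtain ⟨C, h1, h2, h3, h4, Y, h5, h6, a, h7, h8⟩ := hmain
  let e := borelEquiv hπ
  let eL : H45C.Coh m ≃ₗ[ℤ] H := e.toAddEquiv.toIntLinearEquiv
  refine ⟨fun w => e (C w), (isCSM_conv hπ).mpr h1, fun C' h => ?_, ?_, ?_, fun v => e (Y v),
    fun v => ?_, fun v P h => ?_, a, fun u v => ?_, h8⟩
  · have h9 : C' = fun w => e (e.symm (C' w)) := by
      funext w
      exact (e.apply_symm_apply _).symm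
    rw [h9] at h ⊢
    have h10 := h2 _ ((isCSM_conv hπ).mp h)
    funext w
    exact congrArg e (congrFun h10 w)
  · exact h3.map' eL.toLinearMap (LinearEquiv.ker eL)
  · have h9 : Set.range (fun w => e (C w)) = eL.toLinearMap '' Set.range C := by
      rw [← Set.range_comp]
      rfl
    rw [h9, ← Submodule.map_span, h4, Submodule.map_top]
    exact LinearMap.range_eq_top.mpr eL.surjective
  · obtain ⟨P, hP⟩ := h5 v
    exact ⟨P, isSchub_conv.mpr hP⟩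
  · exact congrArg e (h6 v P (isSchub_conv.mp h))
  · have h9 := congrArg e (h7 u v)
    rw [map_mul, map_sum] at h9
    refine h9.trans (Finset.sum_congr rfl fun w _ => ?_)
    rw [map_mul, map_intCast]
    exact (zsmul_eq_mul (e (C w)) (a u v w)).symm

theorem main_seven (m : ℕ) (S : Equiv.Perm (Fin (m + 1)) → Prop)
    (hS : ∀ v, S v → H50R.EE (m := m) v)
    {H : Type} [CommRing H] (π : MvPolynomial (Fin (m + 1)) ℤ →+* H) (hπ : IsBorel π) :
    ∃ C : Equiv.Perm (Fin (m + 1)) → H,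
      IsCSM π C ∧ (∀ C', IsCSM π C' → C' = C) ∧
      LinearIndependent ℤ C ∧ Submodule.span ℤ (Set.range C) = ⊤ ∧
      ∃ Y : Equiv.Perm (Fin (m + 1)) → H,
        (∀ v : Equiv.Perm (Fin (m + 1)), ∃ P, IsSchub v P) ∧
        (∀ v P, IsSchub v P → Y v = π P) ∧
        ∃ a : Equiv.Perm (Fin (m + 1)) → Equiv.Perm (Fin (m + 1)) → Equiv.Perm (Fin (m + 1)) → ℤ,
          (∀ u v, Y v * C u = ∑ w, a u v w • C w) ∧
          (∀ u v w : Equiv.Perm (Fin (m + 1)), S v → 0 ≤ a u v w) ∧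
          ∀ u v w : Equiv.Perm (Fin (m + 1)), inv w ≤ inv u + 7 →
            (inv w = inv u + inv v → inv v ≤ 5) → 0 ≤ a u v w := by
  refine transfer m (fun a => (∀ u v w : Equiv.Perm (Fin (m + 1)), S v → 0 ≤ a u v w) ∧
    ∀ u v w : Equiv.Perm (Fin (m + 1)), inv w ≤ inv u + 7 →
      (inv w = inv u + inv v → inv v ≤ 5) → 0 ≤ a u v w) ?_ π hπ
  obtain ⟨C, h1, h2, h3, h4, Y, h5, h6, a, h7, h8, h9⟩ := H50R.main_seven m S hS
  refine ⟨C, h1, h2, h3, h4, Y, h5, h6, a, h7, h8, fun u v w h10 h11 => h9 u v w ?_ ?_⟩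
  · rw [inv_eq, inv_eq] at h10
    exact h10
  · rw [inv_eq, inv_eq, inv_eq] at h11
    exact h11

end Pool.Agent.Helper13.CSD
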