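import Pool.Agent.Helper13.CSD.Conv
import Pool.Agent.Helper50.CSB.Main
import Pool.Agent.Helper45.CSM.Basis

/-!
# Nonnegativity of the CSM expansion of `[Y(v)] * c_SM(Y(u)°)` in type A
-/

namespace Pool.Agent.Helper13.CSD

open MvPolynomial

theorem transferN (m : ℕ) (S : H45C.WG m → Prop)
    (hmain : ∃ C : H45C.WG m → H45C.Coh m, H45C.IsCSM C ∧ (∀ C', H45C.IsCSM C' → C' = C) ∧
      LinearIndependent ℤ C ∧ Submodule.span ℤ (Set.range C) = ⊤ ∧
      ∃ Y : H45C.WG m → H45C.Coh m, (∀ v : H45C.WG m, ∃ P : H45C.Pol m, H45C.IsSchub v P) ∧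
        (∀ (v : H45C.WG m) (P : H45C.Pol m), H45C.IsSchub v P → Y v = H45C.cl P) ∧
        ∀ v : H45C.WG m, S v → ∀ u : H45C.WG m, ∃ a : H45C.WG m → ℕ,
          Y v * C u = ∑ w, (a w : H45C.Coh m) * C w)
    {H : Type} [CommRing H] (π : MvPolynomial (Fin (m + 1)) ℤ →+* H) (hπ : IsBorel π) :
    ∃ C : Equiv.Perm (Fin (m + 1)) → H,
      IsCSM π C ∧ (∀ C', IsCSM π C' → C' = C) ∧
      LinearIndependent ℤ C ∧ Submodule.span ℤ (Set.range C) = ⊤ ∧
      ∃ Y : Equiv.Perm (Fin (m + 1)) → H,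
        (∀ v : Equiv.Perm (Fin (m + 1)), ∃ P, IsSchub v P) ∧
        (∀ v P, IsSchub v P → Y v = π P) ∧
        ∀ v : Equiv.Perm (Fin (m + 1)), S v → ∀ u : Equiv.Perm (Fin (m + 1)),
          ∃ a : Equiv.Perm (Fin (m + 1)) → ℕ, Y v * C u = ∑ w, a w • C w := by
  obtain ⟨C, h1, h2, h3, h4, Y, h5, h6, h7⟩ := hmain
  let e := borelEquiv hπ
  let eL : H45C.Coh m ≃ₗ[ℤ] H := e.toAddEquiv.toIntLinearEquiv
  refine ⟨fun w => e (C w), (isCSM_conv hπ).mpr h1, fun C' h => ?_, ?_, ?_, fun v => e (Y v),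
    fun v => ?_, fun v P h => ?_, fun v hv u => ?_⟩
  · have h9 : C' = fun w => e (e.symm (C' w)) := by
      funext w
      exact (e.apply_symm_apply _).symm
    rw [h9] at h ⊢
    have h10 := h2 _ ((isCSM_conv hπ).mp h)
    funext w
    exact congrArg e (congrFun h10 w)
  · exact h3.map' eL.toLinearMap (LinearEquiv.ker eL)
  · have h9 : Set.range (fun w => e (C w)) = eL.toLinearMap '' Set.range C := by
      rw [← Set.range_comp]
      rfl
    rw [h9, ← Submodule.map_span, h4, Submodule.map_top]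
    exact LinearMap.range_eq_top.mpr eL.surjective
  · obtain ⟨P, hP⟩ := h5 v
    exact ⟨P, isSchub_conv.mpr hP⟩
  · exact congrArg e (h6 v P (isSchub_conv.mp h))
  · obtain ⟨a, ha⟩ := h7 v hv u
    refine ⟨a, ?_⟩
    have h9 := congrArg e ha
    rw [map_mul, map_sum] at h9
    refine h9.trans (Finset.sum_congr rfl fun w _ => ?_)
    rw [map_mul, map_natCast]
    exact (nsmul_eq_mul (a w) (e (C w))).symm

theorem boolean (m : ℕ) {H : Type} [CommRing H] (π : MvPolynomial (Fin (m + 1)) ℤ →+* H)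
    (hπ : IsBorel π) :
    ∃ C : Equiv.Perm (Fin (m + 1)) → H,
      IsCSM π C ∧ (∀ C', IsCSM π C' → C' = C) ∧
      LinearIndependent ℤ C ∧ Submodule.span ℤ (Set.range C) = ⊤ ∧
      ∃ Y : Equiv.Perm (Fin (m + 1)) → H,
        (∀ v : Equiv.Perm (Fin (m + 1)), ∃ P, IsSchub v P) ∧
        (∀ v P, IsSchub v P → Y v = π P) ∧
        ∀ v : Equiv.Perm (Fin (m + 1)),
          ((∃ l : List (Fin m), l.Nodup ∧ (l.map refl).prod = v) ∨ inv v ≤ 3) →
            ∀ u : Equiv.Perm (Fin (m + 1)),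
              ∃ a : Equiv.Perm (Fin (m + 1)) → ℕ, Y v * C u = ∑ w, a w • C w := by
  refine transferN m (fun v => (∃ l : List (Fin m), l.Nodup ∧ (l.map refl).prod = v) ∨
    inv v ≤ 3) ?_ π hπ
  obtain ⟨C, h1, h2, h3, h4, Y, h5, h6, h7⟩ := H50R.main m
  refine ⟨C, h1, h2, h3, h4, Y, h5, h6, fun v hv => h7 v ?_⟩
  rcases hv with ⟨l, hl, h⟩ | h
  · exact .inl ⟨l.reverse, List.nodup_reverse.mpr hl, (prod_eq l).symm.trans h⟩
  · exact .inr (inv_eq v ▸ h)

theorem three (m : ℕ) {H : Type} [CommRing H] (π : MvPolynomial (Fin (m + 1)) ℤ →+* H)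
    (hπ : IsBorel π) :
    ∃ C : Equiv.Perm (Fin (m + 1)) → H,
      IsCSM π C ∧ (∀ C', IsCSM π C' → C' = C) ∧
      LinearIndependent ℤ C ∧ Submodule.span ℤ (Set.range C) = ⊤ ∧
      ∃ Y : Equiv.Perm (Fin (m + 1)) → H,
        (∀ v : Equiv.Perm (Fin (m + 1)), ∃ P, IsSchub v P) ∧
        (∀ v P, IsSchub v P → Y v = π P) ∧
        ∀ v : Equiv.Perm (Fin (m + 1)), (H45C.condA (code v) ∨ H45C.condB (code v) ∨
            H45C.condA (code (Fin.revPerm * v * Fin.revPerm)) ∨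
            H45C.condB (code (Fin.revPerm * v * Fin.revPerm))) →
          ∀ u : Equiv.Perm (Fin (m + 1)),
            ∃ a : Equiv.Perm (Fin (m + 1)) → ℕ, Y v * C u = ∑ w, a w • C w := by
  have e : ∀ v : Equiv.Perm (Fin (m + 1)), code v = H45C.code v := fun v =>
    funext fun j => code_eq v j
  refine transferN m (fun v => H45C.condA (code v) ∨ H45C.condB (code v) ∨
            H45C.condA (code (Fin.revPerm * v * Fin.revPerm)) ∨
            H45C.condB (code (Fin.revPerm * v * Fin.revPerm))) ?_ π hπ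
  obtain ⟨C, h1, h2, h3, h4, Y, h5, h6, h7⟩ := H45C.main m
  refine ⟨C, h1, h2, h3, h4, Y, h5, h6, fun v hv => h7 v ?_⟩
  rw [e, e] at hv
  exact hv

end Pool.Agent.Helper13.CSD
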